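import Pool.Agent.X1.Mos11

/-!
# An explicit bound for the Moser polynomials whose index is a power of two

For `s = 2 ^ e ≥ 4` the polynomial `F_{s,k}` has no integer root for `k ≥ 2 e s ^ 3`, so that
`2 s - 1 ≤ k_max(s) < 2 s ^ 3 log_2 s`.

Idea: the `2`-adic argument of `Pool/Agent/X1/Mos3.lean` bounds the exponent of `2` in a root `n` by
`2 e + 2 v`, `v` the exponent of `2` in `(s-1)!`, unless `n > s ^ (k-1) / C`, which is too large. The odd
part of `n` divides `(s-1)!`. So `n ≤ s ^ (2s)`, and then the term `s ^ (k-1)` dominates.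
-/

set_option autoImplicit false

namespace Pool.Agent.Results.MP_b5d28a_nt.ExplicitBoundTwoPowers

/-- The value of the Moser polynomial `F_{s,k}` at the integer `x`; `Ring.choose x j` is
`x (x - 1) ⋯ (x - j + 1) / j!`. -/
noncomputable def moser (s k : ℕ) (x : ℤ) : ℤ :=
  ∑ p ∈ Finset.Icc 1 s, (-1) ^ (p - 1) * (p : ℤ) ^ (k - 1) * Ring.choose x (s - p)

/-- For `s = 2 ^ e ≥ 4` and all `k ≥ 2 e s ^ 3` the Moser polynomial `F_{s,k}` has no integer
root. -/
theorem result : ∀ e : ℕ, 2 ≤ e → ∀ k : ℕ, 2 * e * (2 ^ e) ^ 3 ≤ k →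
    ∀ x : ℤ, moser (2 ^ e) k x ≠ 0 :=
  fun e he k hk x => Pool.Agent.X1.Mos.explicit e he k hk x

end Pool.Agent.Results.MP_b5d28a_nt.ExplicitBoundTwoPowers
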