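import Pool.Agent.X1.Mos8

/-!
# The Moser polynomials of index `4` and `8`

For `s = 4` and `s = 8` the polynomial `F_{s,k}` has no integer root at all for `k ≥ 2 s`; so
`k_max(4) = 7` and `k_max(8) = 15`, as conjectured.

Idea: by the `2`-adic argument of `Pool/Agent/X1/Mos3.lean` the exponent of `2` in a root `n` is
bounded, or nearly that of `s^(k-1)`, which is too large for a root; and the odd part of `n` divides
`(s-1)!`. This leaves finitely many `n` for all large `k`, for which the term `s^(k-1)` dominates.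
The remaining cases are a finite computation, done by the kernel.
-/

set_option autoImplicit false

namespace Pool.Agent.Results.MP_b5d28a_nt.IndexFourAndEight

/-- The value of the Moser polynomial `F_{s,k}` at the integer `x`; `Ring.choose x j` is
`x (x - 1) ⋯ (x - j + 1) / j!`. -/
noncomputable def moser (s k : ℕ) (x : ℤ) : ℤ :=
  ∑ p ∈ Finset.Icc 1 s, (-1) ^ (p - 1) * (p : ℤ) ^ (k - 1) * Ring.choose x (s - p)

/-- The `k ≥ 1` for which `F_{s,k}` has an integer root different from `1, ..., s`. -/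
def nontrivialIndices (s : ℕ) : Set ℕ :=
  {k : ℕ | 1 ≤ k ∧ ∃ x : ℤ, moser s k x = 0 ∧ (x < 1 ∨ (s : ℤ) < x)}

/-- For `s = 4` and `s = 8`, `F_{s,k}` has no integer root for `k ≥ 2 s`, and `2 s - 1` is the
largest `k` for which there is a nontrivial integer root. -/
theorem result : ∀ s : ℕ, s = 4 ∨ s = 8 →
    (∀ k : ℕ, 2 * s ≤ k → ∀ x : ℤ, moser s k x ≠ 0) ∧
      IsGreatest (nontrivialIndices s) (2 * s - 1) := by
  have key : ∀ s : ℕ, (∀ k : ℕ, 2 * s ≤ k → ∀ x : ℤ, moser s k x ≠ 0) → 1 ≤ s →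
      moser s (2 * s - 1) (2 * s : ℕ) = 0 → IsGreatest (nontrivialIndices s) (2 * s - 1) := by
    intro s h hs h0
    refine ⟨⟨by omega, _, h0, Or.inr ?_⟩, ?_⟩
    · push_cast
      omega
    · rintro k ⟨_, x, hx, _⟩
      by_contra hcon
      exact h k (by omega) x hx
  rintro s (rfl | rfl)
  · have h : ∀ k : ℕ, 2 * 4 ≤ k → ∀ x : ℤ, moser 4 k x ≠ 0 := fun k hk x =>
      Pool.Agent.X1.Mos.four k hk x
    exact ⟨h, key 4 h (by norm_num) Pool.Agent.X1.Mos.root4⟩
  · have h : ∀ k : ℕ, 2 * 8 ≤ k → ∀ x : ℤ, moser 8 k x ≠ 0 := fun k hk x =>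
      Pool.Agent.X1.Mos.eight k hk x
    exact ⟨h, key 8 h (by norm_num) Pool.Agent.X1.Mos.root8⟩

end Pool.Agent.Results.MP_b5d28a_nt.IndexFourAndEight
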