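import Pool.Agent.X1.Mos6

/-!
# Moser polynomials have no integer roots for large `k` in residue classes

`moser s k x` is the value at the integer `x` of the Moser polynomial
`F_{s,k}(x) = ∑_{p=1}^{s} (-1)^(p-1) p^(k-1) binom(x, s-p)`.

For every `s ≥ 4` which is not `2` modulo `4` the polynomial `F_{s,k}` has no integer root at all
if `k` is large and lies in certain residue classes. For `s = 2 ^ e` these are all `k`, and for
`s = 2 ^ a 3 ^ b` all `k` but the odd multiples of `3`.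

Idea: let `q` be a prime factor of `s`, and let `n > 0` be a root. Then `n` times a certain integer
`A` is `± (s-1)! s^(k-1)`, and `A` is congruent modulo `n` (up to a bounded factor) to
`± B`, `B = ∑_{p<s} p^(k-1) (s-1)!/(s-p)`, whose `q`-adic valuation is bounded for `k` in the classes
above (power sums over the residues prime to `q`, to first and to second order). So the exponent
of `q` in `n` is bounded, or it is nearly that of `s^(k-1)`. The second is impossible as all roots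
are `O(2^k)`, and the first for all `q` gives a bounded `n`, which is no root for large `k`.
-/

set_option autoImplicit false

namespace Pool.Agent.Results.MP_b5d28a_nt.NoRootsForLargeK

/-- The value of the Moser polynomial `F_{s,k}` at the integer `x`; `Ring.choose x j` is
`x (x - 1) ⋯ (x - j + 1) / j!`. -/
noncomputable def moser (s k : ℕ) (x : ℤ) : ℤ :=
  ∑ p ∈ Finset.Icc 1 s, (-1) ^ (p - 1) * (p : ℤ) ^ (k - 1) * Ring.choose x (s - p)

/-- (1) Let `s ≥ 4`, `s ≢ 2` modulo `4`. There is `K` such that `F_{s,k}` has no integer root if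
`k ≥ K` and either `k` is even and `q - 1 ∣ k - 2` for all primes `q ∣ s`, or `k` is odd and
`q - 1 ∣ k - 3`, `q ∤ k` for all primes `q ∣ s`.
(2) For `s = 2 ^ e ≥ 4` there is `K` such that `F_{s,k}` has no integer root for **all** `k ≥ K`.
(3) For `s = 2 ^ a 3 ^ b ≥ 4`, `a ≠ 1`, there is `K` such that `F_{s,k}` has no integer root for all
`k ≥ K` which are even or not divisible by `3`. -/
theorem result :
    (∀ s : ℕ, 4 ≤ s → s % 4 ≠ 2 → ∃ K : ℕ, ∀ k : ℕ, K ≤ k →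
      ((Even k ∧ ∀ q : ℕ, q.Prime → q ∣ s → q - 1 ∣ k - 2) ∨
        (Odd k ∧ ∀ q : ℕ, q.Prime → q ∣ s → q - 1 ∣ k - 3 ∧ ¬ q ∣ k)) →
      ∀ x : ℤ, moser s k x ≠ 0) ∧
    (∀ e : ℕ, 2 ≤ e → ∃ K : ℕ, ∀ k : ℕ, K ≤ k → ∀ x : ℤ, moser (2 ^ e) k x ≠ 0) ∧
    (∀ a b : ℕ, 4 ≤ 2 ^ a * 3 ^ b → a ≠ 1 → ∃ K : ℕ, ∀ k : ℕ, K ≤ k → (Even k ∨ ¬ 3 ∣ k) →
      ∀ x : ℤ, moser (2 ^ a * 3 ^ b) k x ≠ 0) := by
  have h1 : ∀ s : ℕ, 4 ≤ s → s % 4 ≠ 2 → ∃ K : ℕ, ∀ k : ℕ, K ≤ k →
      ((Even k ∧ ∀ q : ℕ, q.Prime → q ∣ s → q - 1 ∣ k - 2) ∨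
        (Odd k ∧ ∀ q : ℕ, q.Prime → q ∣ s → q - 1 ∣ k - 3 ∧ ¬ q ∣ k)) →
      ∀ x : ℤ, moser s k x ≠ 0 := fun s hs h4 => Pool.Agent.X1.Mos.gen_final s hs h4
  refine ⟨h1, ?_, ?_⟩
  · intro e he
    have h4 : 2 ^ 2 ∣ 2 ^ e := pow_dvd_pow 2 he
    have h5 : 4 ≤ 2 ^ e := Nat.le_of_dvd (by positivity) h4
    obtain ⟨K, hK⟩ := h1 (2 ^ e) h5 (by omega)
    refine ⟨K, fun k hk => hK k hk ?_⟩
    have hq : ∀ q : ℕ, q.Prime → q ∣ 2 ^ e → q = 2 := fun q hq hd =>
      (Nat.prime_dvd_prime_iff_eq hq Nat.prime_two).1 (hq.dvd_of_dvd_pow hd)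
    rcases Nat.even_or_odd k with h | h
    · left
      refine ⟨h, fun q hq1 hq2 => ?_⟩
      rw [hq q hq1 hq2]
      exact one_dvd _
    · right
      refine ⟨h, fun q hq1 hq2 => ?_⟩
      rw [hq q hq1 hq2]
      exact ⟨one_dvd _, by
        obtain ⟨t, ht⟩ := h
        omega⟩
  · intro a b hs ha
    have h4 : (2 ^ a * 3 ^ b) % 4 ≠ 2 := by
      rcases Nat.lt_or_ge a 2 with h | h
      · have : a = 0 := by omega
        rw [this, pow_zero, one_mul]
        have h3 : Odd (3 ^ b) := Odd.pow (by decide)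
        obtain ⟨t, ht⟩ := h3
        omega
      · have h5 : 2 ^ 2 ∣ 2 ^ a * 3 ^ b := (pow_dvd_pow 2 h).mul_right _
        omega
    obtain ⟨K, hK⟩ := h1 (2 ^ a * 3 ^ b) hs h4
    refine ⟨K + 3, fun k hk hcl => hK k (by omega) ?_⟩
    have hq : ∀ q : ℕ, q.Prime → q ∣ 2 ^ a * 3 ^ b → q = 2 ∨ q = 3 := by
      intro q hq hd
      rcases (Nat.Prime.dvd_mul hq).1 hd with h | h
      · exact Or.inl ((Nat.prime_dvd_prime_iff_eq hq Nat.prime_two).1 (hq.dvd_of_dvd_pow h))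
      · exact Or.inr ((Nat.prime_dvd_prime_iff_eq hq Nat.prime_three).1 (hq.dvd_of_dvd_pow h))
    rcases Nat.even_or_odd k with h | h
    · left
      refine ⟨h, fun q hq1 hq2 => ?_⟩
      obtain ⟨t, ht⟩ := h
      rcases hq q hq1 hq2 with rfl | rfl
      · exact one_dvd _
      · exact ⟨t - 1, by omega⟩
    · right
      have h3 : ¬ 3 ∣ k := by
        rcases hcl with h5 | h5
        · exact absurd h (Nat.not_odd_iff_even.2 h5)
        · exact h5
      refine ⟨h, fun q hq1 hq2 => ?_⟩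
      obtain ⟨t, ht⟩ := h
      rcases hq q hq1 hq2 with rfl | rfl
      · exact ⟨one_dvd _, by omega⟩
      · exact ⟨⟨t - 1, by omega⟩, h3⟩

end Pool.Agent.Results.MP_b5d28a_nt.NoRootsForLargeK
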