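import Pool.Agent.X1.Mos10

/-!
# Moser polynomials of index `s ≡ 2` modulo `4` have no integer roots for large `k` in classes

For `s ≡ 2` modulo `4` the `q`-adic argument of `NoRootsForLargeK` leaves one more possibility: the
exponent of `2` in a root `n` may be close to `k`, as the largest root is about `(s-1) 2^(k-1)`.
Then `n = w 2^(k-1-M)` with bounded `M` and `w`; an asymptotic expansion to first order shows that
`n = (s-1) 2^(k-1)`, and to second order that this is no root (the sign is that of the third term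
`3^(k-1) binom(n, s-3)`).
-/

set_option autoImplicit false

namespace Pool.Agent.Results.MP_b5d28a_nt.TwiceOddIndex

/-- The value of the Moser polynomial `F_{s,k}` at the integer `x`; `Ring.choose x j` is
`x (x - 1) ⋯ (x - j + 1) / j!`. -/
noncomputable def moser (s k : ℕ) (x : ℤ) : ℤ :=
  ∑ p ∈ Finset.Icc 1 s, (-1) ^ (p - 1) * (p : ℤ) ^ (k - 1) * Ring.choose x (s - p)

/-- (1) Let `s ≥ 6`, `s ≡ 2` modulo `4`. There is `K` such that `F_{s,k}` has no integer root if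
`k ≥ K` and either `k` is even and `q - 1 ∣ k - 2` for all primes `q ∣ s`, or `k` is odd and
`q - 1 ∣ k - 3`, `q ∤ k` for all primes `q ∣ s`.
(2) For `s = 2 · 3 ^ b`, `b ≥ 1`, there is `K` such that `F_{s,k}` has no integer root for all
`k ≥ K` which are even or not divisible by `3`. -/
theorem result :
    (∀ s : ℕ, 6 ≤ s → s % 4 = 2 → ∃ K : ℕ, ∀ k : ℕ, K ≤ k →
      ((Even k ∧ ∀ q : ℕ, q.Prime → q ∣ s → q - 1 ∣ k - 2) ∨
        (Odd k ∧ ∀ q : ℕ, q.Prime → q ∣ s → q - 1 ∣ k - 3 ∧ ¬ q ∣ k)) →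
      ∀ x : ℤ, moser s k x ≠ 0) ∧
    (∀ b : ℕ, 1 ≤ b → ∃ K : ℕ, ∀ k : ℕ, K ≤ k → (Even k ∨ ¬ 3 ∣ k) →
      ∀ x : ℤ, moser (2 * 3 ^ b) k x ≠ 0) := by
  have h1 : ∀ s : ℕ, 6 ≤ s → s % 4 = 2 → ∃ K : ℕ, ∀ k : ℕ, K ≤ k →
      ((Even k ∧ ∀ q : ℕ, q.Prime → q ∣ s → q - 1 ∣ k - 2) ∨
        (Odd k ∧ ∀ q : ℕ, q.Prime → q ∣ s → q - 1 ∣ k - 3 ∧ ¬ q ∣ k)) →
      ∀ x : ℤ, moser s k x ≠ 0 := fun s hs _ => Pool.Agent.X1.Mos.gen_final2 s (by omega)
  refine ⟨h1, ?_⟩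
  intro b hb
  have h3 : Odd (3 ^ b) := Odd.pow (by decide)
  have h5 : 3 ^ 1 ≤ 3 ^ b := Nat.pow_le_pow_right (by norm_num) hb
  obtain ⟨K, hK⟩ := h1 (2 * 3 ^ b) (by omega) (by
    obtain ⟨t, ht⟩ := h3
    omega)
  refine ⟨K + 3, fun k hk hcl => hK k (by omega) ?_⟩
  have hq : ∀ q : ℕ, q.Prime → q ∣ 2 * 3 ^ b → q = 2 ∨ q = 3 := by
    intro q hq hd
    rcases (Nat.Prime.dvd_mul hq).1 hd with h | h
    · exact Or.inl ((Nat.prime_dvd_prime_iff_eq hq Nat.prime_two).1 h)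
    · exact Or.inr ((Nat.prime_dvd_prime_iff_eq hq Nat.prime_three).1 (hq.dvd_of_dvd_pow h))
  rcases Nat.even_or_odd k with h | h
  · left
    refine ⟨h, fun q hq1 hq2 => ?_⟩
    obtain ⟨t, ht⟩ := h
    rcases hq q hq1 hq2 with rfl | rfl
    · exact one_dvd _
    · exact ⟨t - 1, by omega⟩
  · right
    have h3 : ¬ 3 ∣ k := by
      rcases hcl with h5 | h5
      · exact absurd h (Nat.not_odd_iff_even.2 h5)
      · exact h5
    refine ⟨h, fun q hq1 hq2 => ?_⟩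
    obtain ⟨t, ht⟩ := h
    rcases hq q hq1 hq2 with rfl | rfl
    · exact ⟨one_dvd _, by omega⟩
    · exact ⟨⟨t - 1, by omega⟩, h3⟩

end Pool.Agent.Results.MP_b5d28a_nt.TwiceOddIndex
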